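import Pool.Agent.N483.KM.StmP
import Pool.Agent.N603.KM.OSUP

/-!
# Supporting functionals of the volume function with linear parameters
-/

set_option autoImplicit false
set_option linter.unusedSectionVars false

namespace Pool.Agent.N986.KM

open MeasureTheory Set Filter Topology
open scoped ENNReal InnerProductSpace
open Pool.Agent.N603.KM (A G A_closed G_open G_sub A_mono PLset strict_lt vol_G)

section gen

variable {F Q : Type*} [NormedAddCommGroup F] [NormedSpace ℝ F] [MeasurableSpace F] [BorelSpace F]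
  [FiniteDimensional ℝ F] [NormedAddCommGroup Q] [NormedSpace ℝ Q] [FiniteDimensional ℝ Q] {r : ℕ}

/-- the functions with a fixed parameter -/
def Su (S : Fin r → F × Q → ℝ) (u : Q) : Fin r → F → ℝ := fun j x => S j (x, u)

lemma Su_conv {S : Fin r → F × Q → ℝ} (hS : ∀ j, ConvexOn ℝ univ (S j)) (u : Q) :
    ∀ j, ConvexOn ℝ univ (Su S u j) := by
  intro j
  refine ⟨convex_univ, fun x _ y _ a b ha hb hab => ?_⟩
  have h := (hS j).2 (mem_univ (x, u)) (mem_univ (y, u)) ha hb hab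
  have e : a • (x, u) + b • (y, u) = (a • x + b • y, u) := by
    ext
    · rfl
    · show a • u + b • u = u
      rw [← add_smul, hab, one_smul]
  rw [e] at h
  exact h

lemma comb2 {S : Fin r → F × Q → ℝ} (hS : ∀ j, ConvexOn ℝ univ (S j)) (j : Fin r) (x y : F)
    (u v : Q) {t : ℝ} (h0 : 0 ≤ t) (h1 : t ≤ 1) :
    S j ((1 - t) • x + t • y, (1 - t) • u + t • v) ≤ (1 - t) * S j (x, u) + t * S j (y, v) := by
  have := (hS j).2 (mem_univ (x, u)) (mem_univ (y, v)) (by linarith : 0 ≤ 1 - t) h0 (by ring)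
  simpa using this

variable (μ : Measure F) [μ.IsAddHaarMeasure]

/-- the volume function -/
noncomputable def ph (S : Fin r → F × Q → ℝ) (w : (Fin r → ℝ) × Q) : ℝ≥0∞ := μ (A (Su S w.2) w.1)

lemma ph_log {S : Fin r → F × Q → ℝ} (hS : ∀ j, ConvexOn ℝ univ (S j))
    (hc : ∀ j, Continuous (S j)) {t : ℝ} (ht0 : 0 < t) (ht1 : t < 1) (w w' : (Fin r → ℝ) × Q) :
    ph μ S w ^ (1 - t) * ph μ S w' ^ t ≤ ph μ S ((1 - t) • w + t • w') := by
  have hcu : ∀ u : Q, ∀ j, Continuous (Su S u j) := fun u j =>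
    (hc j).comp (continuous_id.prodMk continuous_const)
  refine PLset μ t ht0 ht1 _ _ _ (A_closed _ (hcu _) _).measurableSet
    (A_closed _ (hcu _) _).measurableSet (A_closed _ (hcu _) _).measurableSet ?_
  intro x hx y hy j
  have h1 := comb2 hS j x y w.2 w'.2 ht0.le ht1.le
  have h2 := mul_le_mul_of_nonneg_left (hx j) (by linarith : 0 ≤ 1 - t)
  have h3 := mul_le_mul_of_nonneg_left (hy j) ht0.le
  show S j ((1 - t) • x + t • y, (1 - t) • w.2 + t • w'.2) ≤ (1 - t) * w.1 j + t * w'.1 j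
  unfold Su at h2 h3
  linarith

lemma U_conv {S : Fin r → F × Q → ℝ} (hS : ∀ j, ConvexOn ℝ univ (S j))
    (hc : ∀ j, Continuous (S j)) {c : ℝ≥0∞} (h0 : c ≠ 0) (ht : c ≠ ⊤) :
    Convex ℝ {w : (Fin r → ℝ) × Q | c ≤ ph μ S w} := by
  intro s hs s' hs' a b ha hb hab
  rcases ha.eq_or_lt with h | ha
  · rw [← h, zero_add] at hab
    rw [← h, hab]; simpa using hs'
  rcases hb.eq_or_lt with h | hb
  · rw [← h, add_zero] at hab
    rw [← h, hab]; simpa using hs
  have ha' : a = 1 - b := by linarith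
  rw [ha']
  have hb1 : b < 1 := by linarith
  have key := ph_log μ hS hc hb hb1 s s'
  refine le_trans ?_ key
  calc c = c ^ (1 - b) * c ^ b := by
        rw [← ENNReal.rpow_add _ _ h0 ht]; simp
    _ ≤ _ := by
        have h1 : c ≤ ph μ S s := hs
        have h2 : c ≤ ph μ S s' := hs'
        exact mul_le_mul' (ENNReal.rpow_le_rpow h1 (by linarith)) (ENNReal.rpow_le_rpow h2 hb.le)

theorem gen2 [Nontrivial F] {S : Fin r → F × Q → ℝ} (hS : ∀ j, ConvexOn ℝ univ (S j))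
    (hc : ∀ j, Continuous (S j)) (e : Fin r → ℝ)
    (hb : ∀ s : Fin r → ℝ, Bornology.IsBounded {z : F × Q | ∀ j, S j z ≤ s j})
    (hsl : ∃ x0 : F, ∀ j, S j (x0, 0) < e j) :
    ∃ f : ((Fin r → ℝ) × Q) →L[ℝ] ℝ, (∀ j, f (Pi.single j 1, 0) ≤ 0) ∧
      (∃ j, f (Pi.single j 1, 0) ≠ 0) ∧
      ∀ w : (Fin r → ℝ) × Q, f (e, 0) ≤ f w → ph μ S w ≤ ph μ S (e, 0) := by
  classical
  obtain ⟨x0, hx0⟩ := hsl
  have hx0G : x0 ∈ G (Su S 0) e := hx0
  have hcu : ∀ u : Q, ∀ j, Continuous (Su S u j) := fun u j =>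
    (hc j).comp (continuous_id.prodMk continuous_const)
  have hbu : ∀ (u : Q) (s : Fin r → ℝ), Bornology.IsBounded (A (Su S u) s) := by
    intro u s
    refine (hb s).image_fst.subset fun x hx => ⟨(x, u), hx, rfl⟩
  have hKc : IsCompact (A (Su S 0) e) :=
    Metric.isCompact_of_isClosed_isBounded (A_closed _ (hcu 0) e) (hbu 0 e)
  have hfin : ph μ S (e, 0) ≠ ⊤ := hKc.measure_lt_top.ne
  have hpos : ph μ S (e, 0) ≠ 0 := by
    have h1 : 0 < μ (G (Su S 0) e) := (G_open _ (hcu 0) e).measure_pos μ ⟨x0, hx0G⟩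
    exact (h1.trans_le (measure_mono (G_sub _ e))).ne'
  obtain ⟨U, hU⟩ : ∃ U : Set ((Fin r → ℝ) × Q), U = {w | ph μ S (e, 0) ≤ ph μ S w} := ⟨_, rfl⟩
  have hUc : Convex ℝ U := by rw [hU]; exact U_conv μ hS hc hpos hfin
  have hsub : ∀ w : (Fin r → ℝ) × Q, A (Su S 0) e ⊆ A (Su S w.2) w.1 → w ∈ U := by
    intro w hw
    rw [hU]
    exact measure_mono hw
  -- an interior point
  have hw0 : ((e + fun _ => 1, 0) : (Fin r → ℝ) × Q) ∈ interior U := by
    rw [mem_interior_iff_mem_nhds]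
    have h1 : ∀ᶠ w : (Fin r → ℝ) × Q in 𝓝 (e + fun _ => 1, 0),
        ∀ x ∈ A (Su S 0) e, ∀ j, S j (x, w.2) < w.1 j := by
      refine hKc.eventually_forall_of_forall_eventually fun x hx => ?_
      rw [eventually_all]
      intro j
      have h2 : Continuous fun z : ((Fin r → ℝ) × Q) × F => S j (z.2, z.1.2) :=
        (hc j).comp (continuous_snd.prodMk (continuous_snd.comp continuous_fst))
      have h3 : Continuous fun z : ((Fin r → ℝ) × Q) × F => z.1.1 j :=
        (continuous_apply j).comp (continuous_fst.comp continuous_fst)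
      refine h2.continuousAt.eventually_lt h3.continuousAt ?_
      have h4 : S j (x, 0) ≤ e j := hx j
      show S j (x, 0) < e j + 1
      linarith
    filter_upwards [h1] with w hw
    exact hsub w fun x hx j => (hw x hx j).le
  have hei : ((e, 0) : (Fin r → ℝ) × Q) ∉ interior U := by
    intro h
    have h1 : Tendsto (fun k : ℕ => ((e - fun _ : Fin r => 1 / ((k : ℝ) + 1), 0) :
        (Fin r → ℝ) × Q)) atTop (𝓝 (e, 0)) := by
      refine Tendsto.prodMk_nhds ?_ tendsto_const_nhds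
      rw [tendsto_pi_nhds]
      intro j
      have := (tendsto_const_nhds (x := e j)).sub
        (tendsto_one_div_add_atTop_nhds_zero_nat (𝕜 := ℝ))
      simpa using this
    have h2 := h1.eventually (isOpen_interior.mem_nhds h)
    obtain ⟨k, hk⟩ := h2.exists
    have h4 := interior_subset hk
    rw [hU] at h4
    have h3 : μ (A (Su S 0) e) ≤ μ (A (Su S 0) (e - fun _ : Fin r => 1 / ((k : ℝ) + 1))) := h4
    exact absurd h3 (not_le.mpr (strict_lt μ (Su S 0) (Su_conv hS 0) (hcu 0) e (hbu 0) x0 hx0G _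
      (by positivity)))
  obtain ⟨f, hf⟩ := geometric_hahn_banach_open_point hUc.interior isOpen_interior hei
  have hfU : ∀ w ∈ U, f w ≤ f (e, 0) := by
    intro w hw
    have h1 : w ∈ closure (interior U) := by
      rw [hUc.closure_interior_eq_closure_of_nonempty_interior ⟨_, hw0⟩]
      exact subset_closure hw
    have h2 : closure (interior U) ⊆ {w | f w ≤ f (e, 0)} :=
      closure_minimal (fun a ha => (hf a ha).le) (isClosed_le f.continuous continuous_const)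
    exact h2 h1
  have hdec : ∀ (s : Fin r → ℝ) (u : Q), f (s, u) = ∑ j, s j * f (Pi.single j 1, 0) + f (0, u) := by
    intro s u
    have e1 : ((s, u) : (Fin r → ℝ) × Q) = (∑ j, s j • ((Pi.single j 1, 0) : (Fin r → ℝ) × Q)) +
        (0, u) := by
      ext
      · simp [Finset.sum_apply, Prod.fst_sum, Pi.single_apply]
      · simp [Prod.snd_sum]
    rw [e1, map_add, map_sum]
    congr 1
    refine Finset.sum_congr rfl fun j _ => ?_
    rw [map_smul, smul_eq_mul]
  have hle : ∀ j, f (Pi.single j 1, 0) ≤ 0 := by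
    intro j
    have h1 : ((e + Pi.single j 1, 0) : (Fin r → ℝ) × Q) ∈ U := by
      refine hsub _ (A_mono _ fun i => ?_)
      show e i ≤ e i + (Pi.single j (1 : ℝ) : Fin r → ℝ) i
      have : 0 ≤ (Pi.single j (1 : ℝ) : Fin r → ℝ) i := by
        by_cases hij : i = j
        · subst hij; simp
        · simp [Pi.single_eq_of_ne hij]
      linarith
    have h2 := hfU _ h1
    have e1 : ((e + Pi.single j 1, 0) : (Fin r → ℝ) × Q) = (e, 0) + (Pi.single j 1, 0) := by
      simp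
    rw [e1, map_add] at h2
    linarith
  have hne : ∃ j, f (Pi.single j 1, 0) ≠ 0 := by
    by_contra hcon
    push Not at hcon
    have h1 : ∀ (s : Fin r → ℝ) (u : Q), f (s, u) = f (0, u) := by
      intro s u
      rw [hdec, Finset.sum_eq_zero fun j _ => by rw [hcon j, mul_zero], zero_add]
    have h2 : ∀ u : Q, f (0, u) ≤ 0 := by
      intro u
      have h3 : ∀ j, ∃ c : ℝ, ∀ x ∈ A (Su S 0) e, S j (x, u) ≤ c := by
        intro j
        obtain ⟨c, hc'⟩ := (hKc.image (hcu u j)).bddAbove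
        exact ⟨c, fun x hx => hc' ⟨x, hx, rfl⟩⟩
      choose c hc' using h3
      have h4 : ((c, u) : (Fin r → ℝ) × Q) ∈ U := hsub _ fun x hx j => hc' j x hx
      have h5 := hfU _ h4
      rw [h1, h1 e 0] at h5
      have h6 : f ((0, 0) : (Fin r → ℝ) × Q) = 0 := map_zero f
      rwa [h6] at h5
    have h7 := hf _ hw0
    rw [h1 e 0, h1 (e + fun _ => 1) 0] at h7
    exact lt_irrefl _ h7
  refine ⟨f, hle, hne, ?_⟩
  have hf1 : f ((fun _ => 1, 0) : (Fin r → ℝ) × Q) < 0 := by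
    have h6 : f ((0, 0) : (Fin r → ℝ) × Q) = 0 := map_zero f
    rw [hdec, h6, add_zero]
    obtain ⟨j, hj⟩ := hne
    have h8 : ∑ i, (1 : ℝ) * f (Pi.single i 1, 0) < ∑ _i : Fin r, (0 : ℝ) := by
      refine Finset.sum_lt_sum (fun i _ => ?_) ⟨j, Finset.mem_univ j, ?_⟩
      · rw [one_mul]; exact hle i
      · rw [one_mul]; exact lt_of_le_of_ne (hle j) hj
    simpa using h8
  rintro ⟨s, u⟩ hs
  have hlt : ∀ w : (Fin r → ℝ) × Q, f (e, 0) < f w → ph μ S w < ph μ S (e, 0) := by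
    intro w hw
    by_contra hcon
    have h1 : w ∈ U := by rw [hU]; exact not_lt.mp hcon
    have := hfU w h1
    linarith
  rcases (A (Su S u) s).eq_empty_or_nonempty with h | ⟨y, hy⟩
  · show μ (A (Su S u) s) ≤ _
    rw [h]; simp
  have hz : ((1 - (1 / 2 : ℝ)) • y + (1 / 2 : ℝ) • x0) ∈
      G (Su S ((1 - (1 / 2 : ℝ)) • u + (1 / 2 : ℝ) • (0 : Q)))
        ((1 - (1 / 2 : ℝ)) • s + (1 / 2 : ℝ) • e) := by
    intro j
    have h1 := comb2 hS j y x0 u 0 (t := 1 / 2) (by norm_num) (by norm_num)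
    have h2 : S j (y, u) ≤ s j := hy j
    have h3 := hx0 j
    show S j ((1 - (1 / 2 : ℝ)) • y + (1 / 2 : ℝ) • x0, (1 - (1 / 2 : ℝ)) • u + (1 / 2 : ℝ) • 0) <
      (1 - (1 / 2 : ℝ)) * s j + (1 / 2 : ℝ) * e j
    linarith
  have h1 : ph μ S ((1 - (1 / 2 : ℝ)) • (s, u) + (1 / 2 : ℝ) • (e, 0)) ≤ ph μ S (e, 0) := by
    refine vol_G μ _ (Su_conv hS _) _ _ hz _ fun ε hε => (hlt (((1 - (1 / 2 : ℝ)) • s +
      (1 / 2 : ℝ) • e - fun _ => ε), (1 - (1 / 2 : ℝ)) • u + (1 / 2 : ℝ) • (0 : Q)) ?_).le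
    have h2 : (((1 - (1 / 2 : ℝ)) • s + (1 / 2 : ℝ) • e - fun _ => ε),
        (1 - (1 / 2 : ℝ)) • u + (1 / 2 : ℝ) • (0 : Q)) =
        (1 - (1 / 2 : ℝ)) • (s, u) + (1 / 2 : ℝ) • (e, 0) -
          ε • ((fun _ => (1 : ℝ), 0) : (Fin r → ℝ) × Q) := by
      ext
      · simp
      · simp
    rw [h2, map_sub, map_add, map_smul, map_smul, map_smul]
    simp only [smul_eq_mul]
    have h3 : ε * f ((fun _ => 1, 0) : (Fin r → ℝ) × Q) < 0 := mul_neg_of_pos_of_neg hε hf1
    linarith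
  have h2 := (ph_log μ hS hc (t := 1 / 2) (by norm_num) (by norm_num) (s, u) (e, 0)).trans h1
  have h3 : ph μ S (s, u) ^ (1 - (1 / 2 : ℝ)) * ph μ S (e, 0) ^ (1 / 2 : ℝ) ≤
      ph μ S (e, 0) ^ (1 - (1 / 2 : ℝ)) * ph μ S (e, 0) ^ (1 / 2 : ℝ) := by
    refine h2.trans (le_of_eq ?_)
    rw [← ENNReal.rpow_add _ _ hpos hfin]; simp
  have h4 : ph μ S (s, u) ^ (1 - (1 / 2 : ℝ)) ≤ ph μ S (e, 0) ^ (1 - (1 / 2 : ℝ)) := by
    refine (ENNReal.mul_le_mul_iff_left ?_ ?_).mp h3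
    · exact (ENNReal.rpow_pos (pos_iff_ne_zero.mpr hpos) hfin).ne'
    · exact ENNReal.rpow_ne_top_of_nonneg (by norm_num) hfin
  exact (ENNReal.rpow_le_rpow_iff (by norm_num)).mp h4

end gen

open Pool.Agent.R754.KG (E)
open Pool.Agent.N483.KM (LV S_PSUP)

/-- KM/PSUP -/
theorem t_PSUP : S_PSUP := by
  intro r n q S e hn hS hb hsl
  have hc : ∀ j, Continuous (S j) := fun j => by
    have := (hS j).continuousOn isOpen_univ
    exact continuousOn_univ.mp this
  have : Nonempty (Fin n) := ⟨⟨0, hn⟩⟩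
  have : Nontrivial (E n) := inferInstance
  obtain ⟨f, h1, ⟨j, hj⟩, h3⟩ := gen2 (volume : Measure (E n)) hS hc e hb hsl
  obtain ⟨g, hg⟩ : ∃ g : E q →L[ℝ] ℝ, ∀ u, g u = f (0, u) :=
    ⟨f.comp (ContinuousLinearMap.inr ℝ (Fin r → ℝ) (E q)), fun u => rfl⟩
  have hdec : ∀ (s : Fin r → ℝ) (u : E q), f (s, u) = ∑ j, s j * f (Pi.single j 1, 0) + g u := by
    intro s u
    have e1 : ((s, u) : (Fin r → ℝ) × E q) =
        (∑ j, s j • ((Pi.single j 1, 0) : (Fin r → ℝ) × E q)) + (0, u) := by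
      ext
      · simp [Finset.sum_apply, Prod.fst_sum, Pi.single_apply]
      · simp [Prod.snd_sum]
    rw [e1, map_add, map_sum, hg]
    congr 1
    refine Finset.sum_congr rfl fun j _ => ?_
    rw [map_smul, smul_eq_mul]
  refine ⟨fun j => -f (Pi.single j 1, 0), -(InnerProductSpace.toDual ℝ (E q)).symm g,
    fun j => by linarith [h1 j], ⟨j, neg_ne_zero.2 hj⟩, fun s u hsu => ?_⟩
  have e2 : ⟪-(InnerProductSpace.toDual ℝ (E q)).symm g, u⟫_ℝ = -g u := by
    rw [inner_neg_left, InnerProductSpace.toDual_symm_apply]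
  have e3 : ∀ s : Fin r → ℝ, ∑ j, -f (Pi.single j 1, 0) * s j =
      -∑ j, s j * f (Pi.single j 1, 0) := by
    intro s
    rw [← Finset.sum_neg_distrib]
    exact Finset.sum_congr rfl fun j _ => by ring
  have e4 : g 0 = 0 := map_zero g
  rw [e2, e3, e3] at hsu
  refine h3 (s, u) ?_
  rw [hdec, hdec, e4]
  linarith

end Pool.Agent.N986.KM
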